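import Pool.Agent.H66.XP.TH

/-!
# Hits of tables (row HTN)
-/

set_option autoImplicit false

namespace Pool.Agent.H46.XP

open Finset Pool.Agent.H6.NB Pool.Agent.H70.OQ Pool.Agent.H70.EH Pool.Agent.H70.EI Pool.Agent.H78.XQ
open Pool.Agent.H66.IP (Local ins sp dm IsZ scl)
open Pool.Agent.H66.IQ Pool.Agent.H66.AV Pool.Agent.H66.XP

/-- the average over one coordinate -/
theorem htn_avg {I : Type} [Fintype I] [DecidableEq I] {T : I → Type} [∀ i, Fintype (T i)]
    (t : I) (h : (∀ i, T i) → ℝ) (φ : T t → ℝ) (hh : ∀ z c, h (Function.update z t c) = h z) :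
    (Fintype.card (T t) : ℝ) * ∑ z, h z * φ (z t) = (∑ z, h z) * ∑ c, φ c := by
  have h1 : ∑ p : (∀ i, T i) × T t, h p.1 * φ (p.1 t) =
      ∑ p : (∀ i, T i) × T t, h p.1 * φ p.2 := by
    refine Finset.sum_nbij' (fun p => (Function.update p.1 t p.2, p.1 t))
      (fun p => (Function.update p.1 t p.2, p.1 t)) ?_ ?_ ?_ ?_ ?_
    · intro p _
      exact mem_univ _
    · intro p _
      exact mem_univ _
    · rintro ⟨z, c⟩ _
      simp
    · rintro ⟨z, c⟩ _
      simp
    · rintro ⟨z, c⟩ _
      simp only [hh]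
  rw [Fintype.sum_prod_type, Fintype.sum_prod_type] at h1
  simp only [sum_const, card_univ, nsmul_eq_mul] at h1
  rw [mul_sum, h1, sum_mul]
  exact sum_congr rfl fun z _ => (mul_sum _ _ _).symm

/-- the sums over the tables, the backgrounds and the contents -/
theorem htn_sum {Z BB PP α J : Type} [Fintype Z] [Fintype BB] [Fintype PP] [Fintype J]
    (S : Finset α) (w : Z → BB → PP → ℝ) (u : Z → BB → PP → α → J → ℝ) (v : Z → J → ℝ)
    (F : Z → BB → PP → ℝ) (δ D : ℝ) (hw0 : ∀ z b p, 0 ≤ w z b p)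
    (hw1 : ∀ z b, ∑ p, w z b p ≤ 1) (hD : 0 ≤ D) (hδ : 0 ≤ δ)
    (h1 : ∀ z b p, F z b p ≤ ∑ a ∈ S, ∑ j, u z b p a j * v z j)
    (h2 : ∀ b p, ∀ a ∈ S, ∀ j, ∑ z, w z b p * (u z b p a j * v z j) ≤
      δ * ∑ z, w z b p * u z b p a j)
    (h3 : ∀ z b p, ∑ a ∈ S, ∑ j, u z b p a j ≤ D) :
    ∑ z, ∑ b, ∑ p, w z b p * F z b p ≤ Fintype.card Z * Fintype.card BB * (δ * D) := by
  have e1 : ∀ G : Z → BB → PP → α → J → ℝ,
      ∑ z, ∑ b, ∑ p, ∑ a ∈ S, ∑ j, G z b p a j = ∑ b, ∑ p, ∑ a ∈ S, ∑ j, ∑ z, G z b p a j := by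
    intro G
    rw [sum_comm]
    refine sum_congr rfl fun b _ => ?_
    rw [sum_comm]
    refine sum_congr rfl fun p _ => ?_
    rw [sum_comm]
    refine sum_congr rfl fun a _ => ?_
    rw [sum_comm]
  calc ∑ z, ∑ b, ∑ p, w z b p * F z b p
      ≤ ∑ z, ∑ b, ∑ p, ∑ a ∈ S, ∑ j, w z b p * (u z b p a j * v z j) := by
        refine sum_le_sum fun z _ => sum_le_sum fun b _ => sum_le_sum fun p _ => ?_
        refine (mul_le_mul_of_nonneg_left (h1 z b p) (hw0 z b p)).trans (le_of_eq ?_)
        rw [mul_sum]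
        exact sum_congr rfl fun a _ => mul_sum _ _ _
    _ = ∑ b, ∑ p, ∑ a ∈ S, ∑ j, ∑ z, w z b p * (u z b p a j * v z j) := e1 _
    _ ≤ ∑ b, ∑ p, ∑ a ∈ S, ∑ j, ∑ z, δ * (w z b p * u z b p a j) := by
        refine sum_le_sum fun b _ => sum_le_sum fun p _ => sum_le_sum fun a ha =>
          sum_le_sum fun j _ => (h2 b p a ha j).trans (le_of_eq (mul_sum _ _ _))
    _ = ∑ z, ∑ b, ∑ p, ∑ a ∈ S, ∑ j, δ * (w z b p * u z b p a j) :=
        (e1 fun z b p a j => δ * (w z b p * u z b p a j)).symm
    _ ≤ ∑ z : Z, ∑ b : BB, δ * D := by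
        refine sum_le_sum fun z _ => sum_le_sum fun b _ => ?_
        calc ∑ p, ∑ a ∈ S, ∑ j, δ * (w z b p * u z b p a j)
            = ∑ p, δ * (w z b p * ∑ a ∈ S, ∑ j, u z b p a j) := by
              refine sum_congr rfl fun p _ => ?_
              rw [mul_sum, mul_sum]
              refine sum_congr rfl fun a _ => ?_
              rw [mul_sum, mul_sum]
          _ ≤ ∑ p, δ * (w z b p * D) := by
              refine sum_le_sum fun p _ => mul_le_mul_of_nonneg_left ?_ hδ
              exact mul_le_mul_of_nonneg_left (h3 z b p) (hw0 z b p)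
          _ = δ * ((∑ p, w z b p) * D) := by
              rw [sum_mul, mul_sum]
          _ ≤ δ * (1 * D) := by
              apply mul_le_mul_of_nonneg_left _ hδ
              exact mul_le_mul_of_nonneg_right (hw1 z b) hD
          _ = δ * D := by rw [one_mul]
    _ = Fintype.card Z * Fintype.card BB * (δ * D) := by
        simp only [sum_const, card_univ, nsmul_eq_mul]
        ring

open Classical in
theorem pf_HTN (hWMX : T_WMX) (hMKX : T_MKX) (hGLX : T_GLX) (hGZX : T_GZX) (hPHZ : T_PHZ)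
    (hQDP : T_QDP) (hCNX : T_CNX) (hAST : Pool.Agent.H66.AV.T_AST) : T_HTN := by
  intro V M n E O hO
  obtain ⟨G1, G2, G3, -⟩ := hGZX
  obtain ⟨-, A2, A3⟩ := hAST
  have s1 : ∀ (z : Za M) (B : ∀ p : {a // a ∈ E}, Cp V p.1),
      ∑ P, wY V E O (gzx M z) B P *
        (if ∃ a ∈ E, 3 * scl (lo V) a ≤ n ∧ ∃ (k : ℕ) (x : Fin n → Bool) (q : Nn n k),
          astr n k x q ∈ tq V E O (gzx M z) P B a ∧ gzx M z (astr n k x q) = false
          then (1 : ℝ) else 0) ≤
      ∑ P, wX V E O n (gzx M z) B P *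
        (if ∃ a ∈ E, 3 * scl (lo V) a ≤ n ∧ ∃ (k : ℕ) (x : Fin n → Bool) (q : Nn n k),
          astr n k x q ∈ tq V E O (gzx M z) P B a ∧ gzx M z (astr n k x q) = false
          then (1 : ℝ) else 0) := by
    intro z B
    obtain ⟨-, -, -, -, h5⟩ := hWMX V E O hO (gzx M z) B
    refine h5 n (fun P => if ∃ a ∈ E, 3 * scl (lo V) a ≤ n ∧
      ∃ (k : ℕ) (x : Fin n → Bool) (q : Nn n k),
      astr n k x q ∈ tq V E O (gzx M z) P B a ∧ gzx M z (astr n k x q) = false
      then (1 : ℝ) else 0) ?_ ?_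
    · intro P
      split_ifs <;> norm_num
    · intro P p c hp
      obtain ⟨-, h6, -⟩ := hMKX V E O hO (gzx M z) P B
      have h7 : ∀ a : ℕ × List Bool, 3 * scl (lo V) a ≤ n →
          tq V E O (gzx M z) (Function.update P p c) B a = tq V E O (gzx M z) P B a :=
        fun a ha => (h6 a p c (by omega)).2.1
      have h8 : (∃ a ∈ E, 3 * scl (lo V) a ≤ n ∧ ∃ (k : ℕ) (x : Fin n → Bool) (q : Nn n k),
          astr n k x q ∈ tq V E O (gzx M z) (Function.update P p c) B a ∧
            gzx M z (astr n k x q) = false) ↔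
          (∃ a ∈ E, 3 * scl (lo V) a ≤ n ∧ ∃ (k : ℕ) (x : Fin n → Bool) (q : Nn n k),
          astr n k x q ∈ tq V E O (gzx M z) P B a ∧ gzx M z (astr n k x q) = false) := by
        constructor
        · rintro ⟨a, ha, h9, k, x, q, h10, h11⟩
          rw [h7 a h9] at h10
          exact ⟨a, ha, h9, k, x, q, h10, h11⟩
        · rintro ⟨a, ha, h9, k, x, q, h10, h11⟩
          rw [← h7 a h9] at h10
          exact ⟨a, ha, h9, k, x, q, h10, h11⟩
      rw [if_congr h8 rfl rfl]
  refine (sum_le_sum fun z _ => sum_le_sum fun B _ => s1 z B).trans ?_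
  by_cases hn : n < M
  · have key := htn_sum (Z := Za M) (BB := ∀ p : {a // a ∈ E}, Cp V p.1)
      (PP := ∀ p : {a // a ∈ E}, Cp V p.1) (α := ℕ × List Bool)
      (J := Σ k : Fin M, (Fin n → Bool) × Nn n k)
      (E.filter fun a => scl (lo V) a ≤ n / 3)
      (fun z B P => wX V E O n (gzx M z) B P)
      (fun z B P a j => if astr n j.1 j.2.1 j.2.2 ∈ tq V E O (gzx M z) P B a then 1 else 0)
      (fun z j => if tbl (z (j.1, ⟨n, hn⟩)) j.2.1 j.2.2 = false then 1 else 0)
      (fun z B P => if ∃ a ∈ E, 3 * scl (lo V) a ≤ n ∧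
        ∃ (k : ℕ) (x : Fin n → Bool) (q : Nn n k),
        astr n k x q ∈ tq V E O (gzx M z) P B a ∧ gzx M z (astr n k x q) = false
        then (1 : ℝ) else 0)
      (1 / 2 ^ n) (2 ^ (2 * (n / 3))) ?_ ?_ (by positivity) (by positivity) ?_ ?_ ?_
    · refine key.trans (le_of_eq ?_)
      unfold nC
      ring
    · intro z B P
      exact ((hWMX V E O hO (gzx M z) B).1 P).2 n
    · intro z B
      exact (hWMX V E O hO (gzx M z) B).2.2.1 n
    · intro z B P
      dsimp only
      split_ifs with h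
      · obtain ⟨a, ha, h9, k, x, q, h10, h11⟩ := h
        have hk : k < M := by
          by_contra hk
          rw [G3 M z n k x q (fun h => hk h.1)] at h11
          exact Bool.noConfusion h11
        have h12 : tbl (z (⟨k, hk⟩, ⟨n, hn⟩)) x q = false := by
          rw [← h11]
          exact (G2 M z (⟨k, hk⟩, ⟨n, hn⟩) x q).symm
        have h13 : a ∈ E.filter fun a => scl (lo V) a ≤ n / 3 := by
          rw [mem_filter]
          exact ⟨ha, by omega⟩
        have h14 : ∀ a' : ℕ × List Bool, ∀ j : Σ k : Fin M, (Fin n → Bool) × Nn n k,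
            (0 : ℝ) ≤ (if astr n j.1 j.2.1 j.2.2 ∈ tq V E O (gzx M z) P B a' then 1 else 0) *
              (if tbl (z (j.1, ⟨n, hn⟩)) j.2.1 j.2.2 = false then 1 else 0) := by
          intro a' j
          apply mul_nonneg <;> split_ifs <;> norm_num
        refine le_trans ?_ (single_le_sum (f := fun a' => ∑ j : Σ k : Fin M,
          (Fin n → Bool) × Nn n k,
          (if astr n j.1 j.2.1 j.2.2 ∈ tq V E O (gzx M z) P B a' then (1 : ℝ) else 0) *
            (if tbl (z (j.1, ⟨n, hn⟩)) j.2.1 j.2.2 = false then 1 else 0))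
          (fun a' _ => sum_nonneg fun j _ => h14 a' j) h13)
        refine le_trans ?_ (single_le_sum (f := fun j : Σ k : Fin M,
          (Fin n → Bool) × Nn n k =>
          (if astr n j.1 j.2.1 j.2.2 ∈ tq V E O (gzx M z) P B a then (1 : ℝ) else 0) *
            (if tbl (z (j.1, ⟨n, hn⟩)) j.2.1 j.2.2 = false then 1 else 0))
          (fun j _ => h14 a j) (mem_univ ⟨⟨k, hk⟩, (x, q)⟩))
        dsimp only
        rw [if_pos h10, if_pos h12]
        norm_num
      · refine sum_nonneg fun a _ => sum_nonneg fun j _ => ?_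
        apply mul_nonneg <;> split_ifs <;> norm_num
    · intro B P a ha j
      rw [mem_filter] at ha
      obtain ⟨k, x, q⟩ := j
      have hinv : ∀ (z : Za M) (c : Wn n k),
          (fun z : Za M => wX V E O n (gzx M z) B P *
            (if astr n k x q ∈ tq V E O (gzx M z) P B a then (1 : ℝ) else 0))
              (Function.update z (k, (⟨n, hn⟩ : Fin M)) c) =
          (fun z : Za M => wX V E O n (gzx M z) B P *
            (if astr n k x q ∈ tq V E O (gzx M z) P B a then (1 : ℝ) else 0)) z := by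
        intro z c
        dsimp only
        obtain ⟨h1, h2⟩ := hGLX V E O n (gzx M (Function.update z (k, (⟨n, hn⟩ : Fin M)) c))
          (gzx M z) (by
            intro w hw
            rw [G1 M z (k, ⟨n, hn⟩) c]
            unfold ovl
            rw [dif_neg]
            rintro ⟨y, hy⟩
            exact hw n k y.1 y.2 le_rfl hy) P B
        rw [h2, h1 a (by omega)]
      have h1 := htn_avg (T := fun t : Fin M × Fin M => Wn t.2.1 t.1.1)
        (k, (⟨n, hn⟩ : Fin M)) (fun z : Za M => wX V E O n (gzx M z) B P *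
            (if astr n k x q ∈ tq V E O (gzx M z) P B a then (1 : ℝ) else 0))
        (fun c : Wn n k => if tbl c x q = false then 1 else 0) hinv
      have h2 : ∑ c : Wn n k, (if tbl c x q = false then (1 : ℝ) else 0) =
          ((univ.filter fun z : Wn n k => tbl z x q = false).card : ℝ) := by
        rw [sum_boole]
      have h3 : ((univ.filter fun z : Wn n k => tbl z x q = false).card : ℝ) * 2 ^ n ≤
          Fintype.card (Wn n k) := by
        exact_mod_cast hPHZ n k x q
      rcases isEmpty_or_nonempty (Za M) with hZ | ⟨⟨z0⟩⟩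
      · simp
      have h4 : (0 : ℝ) < Fintype.card (Wn n k) := by
        have : Nonempty (Wn n k) := ⟨z0 (k, ⟨n, hn⟩)⟩
        have : 0 < Fintype.card (Wn n k) := Fintype.card_pos
        exact_mod_cast this
      have h5 : 0 ≤ ∑ z : Za M, wX V E O n (gzx M z) B P *
          (if astr n k x q ∈ tq V E O (gzx M z) P B a then (1 : ℝ) else 0) := by
        refine sum_nonneg fun z _ => mul_nonneg (((hWMX V E O hO (gzx M z) B).1 P).2 n) ?_
        split_ifs <;> norm_num
      have h6 : ∑ z : Za M, wX V E O n (gzx M z) B P *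
          ((if astr n k x q ∈ tq V E O (gzx M z) P B a then (1 : ℝ) else 0) *
            (if tbl (z (k, ⟨n, hn⟩)) x q = false then 1 else 0)) =
          ∑ z : Za M, wX V E O n (gzx M z) B P *
          (if astr n k x q ∈ tq V E O (gzx M z) P B a then (1 : ℝ) else 0) *
            (if tbl (z (k, ⟨n, hn⟩)) x q = false then 1 else 0) :=
        sum_congr rfl fun z _ => (mul_assoc _ _ _).symm
      dsimp only
      rw [h6]
      have h7 : (Fintype.card (Wn n k) : ℝ) * ∑ z : Za M, wX V E O n (gzx M z) B P *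
          (if astr n k x q ∈ tq V E O (gzx M z) P B a then (1 : ℝ) else 0) *
            (if tbl (z (k, ⟨n, hn⟩)) x q = false then 1 else 0) =
          (∑ z : Za M, wX V E O n (gzx M z) B P *
          (if astr n k x q ∈ tq V E O (gzx M z) P B a then (1 : ℝ) else 0)) *
          ((univ.filter fun z : Wn n k => tbl z x q = false).card : ℝ) := by
        rw [← h2]
        exact h1
      rw [one_div, inv_mul_eq_div, le_div_iff₀ (by positivity)]
      refine le_of_mul_le_mul_left ?_ h4
      rw [← mul_assoc, h7, mul_assoc, mul_comm (Fintype.card (Wn n k) : ℝ)]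
      exact mul_le_mul_of_nonneg_left h3 h5
    · intro z B P
      have h1 : ∀ a : ℕ × List Bool, ∑ j : Σ k : Fin M, (Fin n → Bool) × Nn n k,
          (if astr n j.1 j.2.1 j.2.2 ∈ tq V E O (gzx M z) P B a then (1 : ℝ) else 0) ≤
          (((V a.1).tree a.2).depth : ℝ) := by
        intro a
        rw [sum_boole]
        have h2 : (univ.filter fun j : Σ k : Fin M, (Fin n → Bool) × Nn n k =>
            astr n j.1 j.2.1 j.2.2 ∈ tq V E O (gzx M z) P B a).card ≤
            (tq V E O (gzx M z) P B a).toFinset.card := by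
          apply card_le_card_of_injOn (fun j => astr n j.1 j.2.1 j.2.2)
          · intro j hj
            rw [mem_coe, mem_filter] at hj
            rw [mem_coe, List.mem_toFinset]
            exact hj.2
          · rintro ⟨k, x, q⟩ _ ⟨k', x', q'⟩ _ h
            dsimp only at h
            have h3 := (A3 n k n k' x q x' q' h).2
            have h4 : k = k' := Fin.ext h3
            subst h4
            obtain ⟨rfl, rfl⟩ := A2 n k x x' q q' h
            rfl
        have h3 : (tq V E O (gzx M z) P B a).length ≤ ((V a.1).tree a.2).depth :=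
          (hQDP _ _).1
        have h4 := (h2.trans (List.toFinset_card_le _)).trans h3
        exact_mod_cast h4
      have h2 := (hCNX V E (n / 3)).1
      have h3 : (∑ a ∈ E.filter (fun a => scl (lo V) a ≤ n / 3),
          (((V a.1).tree a.2).depth : ℝ)) ≤ 2 ^ (2 * (n / 3)) := by
        exact_mod_cast h2
      exact (sum_le_sum fun a _ => h1 a).trans h3
  · have h0 : ∀ (z : Za M) (B P : ∀ p : {a // a ∈ E}, Cp V p.1),
        ¬ (∃ a ∈ E, 3 * scl (lo V) a ≤ n ∧
        ∃ (k : ℕ) (x : Fin n → Bool) (q : Nn n k),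
        astr n k x q ∈ tq V E O (gzx M z) P B a ∧ gzx M z (astr n k x q) = false) := by
      rintro z B P ⟨a, ha, h9, k, x, q, h10, h11⟩
      rw [G3 M z n k x q (fun h => hn h.2)] at h11
      exact Bool.noConfusion h11
    have h1 : ∑ z : Za M, ∑ B, ∑ P, wX V E O n (gzx M z) B P *
        (if ∃ a ∈ E, 3 * scl (lo V) a ≤ n ∧ ∃ (k : ℕ) (x : Fin n → Bool) (q : Nn n k),
          astr n k x q ∈ tq V E O (gzx M z) P B a ∧ gzx M z (astr n k x q) = false
          then (1 : ℝ) else 0) = 0 := by
      refine sum_eq_zero fun z _ => sum_eq_zero fun B _ => sum_eq_zero fun P _ => ?_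
      rw [if_neg (h0 z B P), mul_zero]
    rw [h1]
    unfold nC
    positivity

end Pool.Agent.H46.XP
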